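import Pool.Agent.H369.CFG.Stm
import Pool.Agent.H369.PL.Stm

/-!
# The coordinate ring of the Tate curve, its places, and the nodes
-/

set_option autoImplicit false

namespace Pool.Agent.H369.RE

open TensorProduct Pool.Agent.TH549.CK Pool.Agent.H369.TH Pool.Agent.H369.CFG Pool.Agent.H369.SM
open Pool.Agent.H369.PL

section R1
variable {Γ K : Type} [AddCommGroup Γ] [LinearOrder Γ] [IsOrderedAddMonoid Γ] [Field K]

/-- the Taylor expansion as a Laurent series -/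
noncomputable def TL (a : Pt Γ K) (f : Ent Γ K) : LaurentSeries (HG Γ K) :=
  ((T a f : PowerSeries (HG Γ K)) : LaurentSeries (HG Γ K))

/-- `h` is the expansion at `o` of the function `f / θ_o ^ n` -/
def Fr (P : Γ) (o : Pt Γ K) (n : ℕ) (f : Ent Γ K) (h : LaurentSeries (HG Γ K)) : Prop :=
  f ∈ Th P n (ng o ^ n) ∧ h * TL o (theta P o) ^ n = TL o f

/-- the functions on the Tate curve which are regular outside `o`, expanded at `o` -/
noncomputable def R1 (P : Γ) (o : Pt Γ K) : Subalgebra (HG Γ K) (LaurentSeries (HG Γ K)) :=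
  Algebra.adjoin (HG Γ K) {h | ∃ n f, Fr P o n f h}

/-- `Fr` for elements of `R1` -/
def FR (P : Γ) (o : Pt Γ K) (n : ℕ) (f : Ent Γ K) (h : R1 P o) : Prop :=
  Fr P o n f (h : LaurentSeries (HG Γ K))

end R1

section up
variable {k : Type} [Field k]

/-- the inclusion of `R` in `ext R Ω` -/
noncomputable def up (R : Subalgebra k (LaurentSeries k)) (Ω : Type) [Field Ω] [Algebra k Ω] :
    R →+* ext R Ω where
  toFun f := ⟨P10.mapL k Ω (f : LaurentSeries k), P10.mapL_mem R f⟩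
  map_one' := Subtype.ext (map_one (P10.mapL k Ω))
  map_mul' x y := Subtype.ext (map_mul (P10.mapL k Ω) _ _)
  map_zero' := Subtype.ext (map_zero (P10.mapL k Ω))
  map_add' x y := Subtype.ext (map_add (P10.mapL k Ω) _ _)

theorem coeff_up (R : Subalgebra k (LaurentSeries k)) (Ω : Type) [Field Ω] [Algebra k Ω] (f : R) (l : ℤ) :
    ((up R Ω f : ext R Ω) : LaurentSeries Ω).coeff l = algebraMap k Ω ((f : LaurentSeries k).coeff l) :=
  P10.coeff_mapL _ _

end up

/-- power series in `ε` and `δ` (the outer variable is `δ`) -/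
abbrev BB (k : Type) [CommRing k] : Type := PowerSeries (PowerSeries k)

/-- `f(u) ↦ f(δ ζ + v)`; the outer variable is `v` -/
noncomputable def shf {k : Type} [CommRing k] (ζ f : PowerSeries k) : PowerSeries (BB k) :=
  PowerSeries.mk fun b => PowerSeries.mk fun A =>
    (((A + b).choose b : ℕ) : PowerSeries k) * PowerSeries.C (PowerSeries.coeff (A + b) f) * ζ ^ A

section statements

/-- **RE1**.  `R1 P o` is the set of the `h` with `Fr P o n f h` (a subalgebra: `f θ^n' + f' θ^n`, `f f'`).  The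
expansion of `θ = theta P o` at `o` has the order exactly one (`S_theta`).  If `Fr P o N f h`, `n ≤ N`, and
`h` has a pole of order at most `n`, then `T o f` vanishes to the order `N - n`, so `f = θ^(N-n) f'`
(`S_div`) and `Fr P o n f' h`.  The dimension is that of `Th P n (ng o ^ n)` (`S_Th`; `T o` is injective). -/
def S_fr : Prop := ∀ (Γ K : Type) [AddCommGroup Γ] [LinearOrder Γ] [IsOrderedAddMonoid Γ] [Field K]
  [CharZero K] (P : Γ) (_ : Big P) (o : Pt Γ K),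
  (∀ h ∈ R1 P o, ∃ n f, Fr P o n f h) ∧
  (∀ (n : ℕ) (f : Ent Γ K), f ∈ Th P n (ng o ^ n) → ∃ h : R1 P o, FR P o n f h) ∧
  (∀ (n : ℕ) (h : R1 P o), h ∈ Lp (R1 P o) n ↔ ∃ f, FR P o n f h) ∧
  (∀ n : ℕ, 0 < n → Module.finrank (HG Γ K) (Lp (R1 P o) n) = n)

/-- **RE2** (Weierstrass equation).  `ω 0 = ng o`, `ω 1 = o * qq hf`, `ω 2 = ng o * qq hf`, `κ = 0, 1, 1`;
`f_i = θ_(ω i)² mono (-κ i) ∈ Th P 2 (o²)`, a space of dimension two which contains `θ_o²`.  `f_i` is not a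
multiple of `θ_o²` (values at `o`), so `f_1 = a f_0 + b θ_o²`, `f_2 = a' f_0 + b' θ_o²`, `a, a' ≠ 0`; `b ≠ 0`,
`b' ≠ 0` and `b / a ≠ b' / a'` as `f_i` and `f_j` have different zeros.  `X = f_0/θ_o²`,
`Y = θ_(ω 0) θ_(ω 1) θ_(ω 2) mono (-1) / θ_o³`, `Y² = X (a X + b) (a' X + b')`. -/
def S_wf : Prop := ∀ (Γ K : Type) [AddCommGroup Γ] [LinearOrder Γ] [IsOrderedAddMonoid Γ] [Field K]
  [CharZero K] (P hf : Γ) (_ : Big P) (_ : hf + hf = P) (o : Pt Γ K), ∃ (X Y : R1 P o)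
  (c e₁ e₂ e₃ : HG Γ K), X ∈ Lp (R1 P o) 2 ∧ (X : LaurentSeries (HG Γ K)).coeff (-2) ≠ 0 ∧
  Y ∈ Lp (R1 P o) 3 ∧ (Y : LaurentSeries (HG Γ K)).coeff (-3) ≠ 0 ∧ c ≠ 0 ∧ e₁ ≠ e₂ ∧ e₁ ≠ e₃ ∧
  e₂ ≠ e₃ ∧ Y ^ 2 = algebraMap _ (R1 P o) c * (X - algebraMap _ (R1 P o) e₁) *
    (X - algebraMap _ (R1 P o) e₂) * (X - algebraMap _ (R1 P o) e₃)

/-- **RE3** (a curve with a Weierstrass equation is smooth over every extension field).  Let `X', Y'` be
the images in `E = ext R Ω`.  `dim (Lp E n) = n` for `n ≥ 1` (`ext_finrank`), and `X'^i` (pole `2 i`),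
`X'^i Y'` (pole `2 i + 3`) realise all the pole orders except `1`; hence `E = Ω[X'] ⊕ Ω[X'] Y'`, where
`X'` is transcendental over `Ω`.  Normality: an element `a + b Y'`, `a, b ∈ Ω(X')`, integral over
`Ω[X']` (`E` is integral over `Ω[X']`), has the trace `2 a` and the norm `a² - b² f(X')` integral over
`Ω[X']`, hence in `Ω[X']`, so `b² f ∈ Ω[X']` and `b ∈ Ω[X']` as `f` is squarefree. -/
def S_W : Prop := ∀ (k : Type) [Field k] [CharZero k] (R : Subalgebra k (LaurentSeries k))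
  (_ : ∀ n : ℕ, 0 < n → Module.finrank k (Lp R n) = n) (X Y : R) (c e₁ e₂ e₃ : k)
  (_ : X ∈ Lp R 2) (_ : (X : LaurentSeries k).coeff (-2) ≠ 0) (_ : Y ∈ Lp R 3)
  (_ : (Y : LaurentSeries k).coeff (-3) ≠ 0) (_ : c ≠ 0) (_ : e₁ ≠ e₂) (_ : e₁ ≠ e₃) (_ : e₂ ≠ e₃)
  (_ : Y ^ 2 = algebraMap _ R c * (X - algebraMap _ R e₁) * (X - algebraMap _ R e₂) *
    (X - algebraMap _ R e₃)) (Ω : Type) [Field Ω] [Algebra k Ω], IsSmoothCurve (ext R Ω) 1

/-- **RE4** (functions).  `f = θ_a θ_b θ_d` with `a b d = o³`, `b = (0, ρ)` with `ρ` outside a finite set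
of `K`. -/
def S_fun : Prop := ∀ (Γ K : Type) [AddCommGroup Γ] [LinearOrder Γ] [IsOrderedAddMonoid Γ] [Field K]
  [CharZero K] (P : Γ) (_ : Big P) (o a : Pt Γ K) (s : Finset (Pt Γ K))
  (_ : ∀ b ∈ s, ∀ k : ℤ, b ≠ a * qq P ^ k), ∃ f ∈ Th P 3 (ng o ^ 3),
  PowerSeries.coeff 0 (T a f) = 0 ∧ PowerSeries.coeff 1 (T a f) ≠ 0 ∧
  ∀ b ∈ s, PowerSeries.coeff 0 (T b f) ≠ 0

/-- **RE5** (expansion at a point `a` different from `o`): `T a θ_o` is a unit in the power series ring;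
for `h` with `Fr P o n f h` put `e h = T a f / (T a θ_o)^n`; this does not depend on `n` and `f`: if
`Fr P o n f h` and `Fr P o n' f' h` then `f θ^n' = f' θ^n` as `T o` is injective. -/
def S_ev : Prop := ∀ (Γ K : Type) [AddCommGroup Γ] [LinearOrder Γ] [IsOrderedAddMonoid Γ] [Field K]
  [CharZero K] (P : Γ) (_ : Big P) (o a : Pt Γ K) (_ : ∀ k : ℤ, a ≠ o * qq P ^ k),
  ∃ e : R1 P o →+* PowerSeries (HG Γ K), (∀ c, e (algebraMap _ (R1 P o) c) = PowerSeries.C c) ∧
    ∀ (n : ℕ) (f : Ent Γ K) (h : R1 P o), FR P o n f h → e h * T a (theta P o) ^ n = T a f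

/-- **RE6** (the shift is a ring homomorphism).  The coefficient of `v^b δ^A` of the product:
`∑_{b1+b2=b, A1+A2=A} (A1+b1 choose b1) (A2+b2 choose b2) f_(A1+b1) g_(A2+b2) ζ^A`; put `p = A1 + b1`,
`q = A2 + b2`, `p + q = A + b`, and use Vandermonde's identity
`∑_{b1+b2=b} (p choose b1) (q choose b2) = (A + b choose b)`. -/
def S_sh : Prop := ∀ (k : Type) [CommRing k] (ζ : PowerSeries k),
  ∃ sh : PowerSeries k →+* PowerSeries (BB k), ∀ f, sh f = shf ζ f

/-- **RE7** (extension of a homomorphism to the base change).  `Ω ⊗ R → ext R Ω` is an isomorphism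
(compare `P8.ext_span`, `P8.coords` in the library). -/
def S_extE : Prop := ∀ (k : Type) [Field k] (R : Subalgebra k (LaurentSeries k)) (Ω : Type) [Field Ω]
  [Algebra k Ω] (e : R →+* PowerSeries Ω)
  (_ : ∀ c : k, e (algebraMap k R c) = PowerSeries.C (algebraMap k Ω c)),
  ∃ e' : ext R Ω →+* PowerSeries Ω, (∀ c : Ω, e' (algebraMap Ω (ext R Ω) c) = PowerSeries.C c) ∧
    ∀ f, e' (up R Ω f) = e f

/-- **RE8** (the expansions at the nodes over an extension field `F` of the fraction field of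
`B = k[[ε]][[δ]]`, `k = HG Γ K`).  At `p i`: the expansion of `S_ev` at `A.p ξ i`; at `q i`: the expansion of `S_ev`
at `A.x`, then the shift by `ζ i = A.ze ξ y i`, then `B → F`; extended by `S_extE`.  Uniformizers: the
functions of `S_fun` divided by `θ_o³`, at `q i` minus the constant coefficient (the coefficient of
`v` is `π_1 + δ (...)`).  The ideals are different: `p i ≠ p j` and `p i ≠ q j` by `S_fun` (a function
which vanishes at `p i` but not at `p j`, or not at `x`); if the ideals of `q i` and `q j` were the same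
then `f(q i) = f(q j)` for all `f` in `R1`, but for the uniformizer at `x` the difference is
`π_1 δ (ζ i - ζ j) + δ² (...)`, and `ζ i ≠ ζ j`. -/
def S_nodes : Prop := ∀ (Γ K : Type) [AddCommGroup Γ] [LinearOrder Γ] [IsOrderedAddMonoid Γ] [Field K]
  [CharZero K] (τ : ℝ) (A : Gam Γ τ) (m : ℕ) (ξ : Fin m → Kˣ) (_ : Function.Injective ξ) (y : Fin m → K)
  (_ : Function.Injective y) (F : Type) [Field F] [Algebra (BB (HG Γ K)) F] [Algebra (HG Γ K) F]
  (_ : Function.Injective (algebraMap (BB (HG Γ K)) F))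
  (_ : ∀ c : HG Γ K, algebraMap (HG Γ K) F c =
    algebraMap (BB (HG Γ K)) F (PowerSeries.C (PowerSeries.C c))),
  ∃ (ep : Fin m → (R1 A.P (A.o : Pt Γ K) →+* PowerSeries (HG Γ K)))
    (ex : R1 A.P (A.o : Pt Γ K) →+* PowerSeries (HG Γ K))
    (e : Fin m ⊕ Fin m → (ext (R1 A.P (A.o : Pt Γ K)) F →+* PowerSeries F)),
    (∀ (i : Fin m) (n : ℕ) (f : Ent Γ K) (h : R1 A.P (A.o : Pt Γ K)), FR A.P A.o n f h →
      ep i h * T (A.p ξ i) (theta A.P A.o) ^ n = T (A.p ξ i) f) ∧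
    (∀ (n : ℕ) (f : Ent Γ K) (h : R1 A.P (A.o : Pt Γ K)), FR A.P A.o n f h →
      ex h * T A.x (theta A.P A.o) ^ n = T A.x f) ∧
    (∀ x, Unif (e x)) ∧ (∀ x, ctr (e x) ≠ ⊥) ∧ (Function.Injective fun x => ctr (e x)) ∧
    (∀ (i : Fin m) h, e (Sum.inl i) (up _ F h) = PowerSeries.map (algebraMap (HG Γ K) F) (ep i h)) ∧
    (∀ (i : Fin m) h, e (Sum.inr i) (up _ F h) =
      PowerSeries.map (algebraMap (BB (HG Γ K)) F) (shf (A.ze ξ y i) (ex h)))

end statements

end Pool.Agent.H369.RE
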